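import Pool.Agent.H289SM.Assembly
import Pool.Agent.H289SM.TaskP1
import Pool.Agent.H289SM.TaskP2
import Pool.Agent.H289SM.TaskP3
import Pool.Agent.H289SM.TaskP4
import Pool.Agent.H289SM.TaskM1
import Pool.Agent.H289SM.TaskH1
import Pool.Agent.H289SM.TaskH2
import Pool.Agent.H289SM.TaskH3
import Pool.Agent.H289SM.TaskG1
import Pool.Agent.H289SM.TaskG2
import Pool.Agent.H289SM.TaskG3
import Pool.Agent.H289SM.TaskG4
import Pool.Agent.H289SM.TaskF1
import Pool.Agent.H289SM.TaskF2
import Pool.Agent.H289SM.TaskF3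
import Pool.Agent.H289SM.TaskZ1
import Pool.Agent.H289SM.TaskZ2
import Pool.Agent.H289SM.TaskT1
import Pool.Agent.H289SM.TaskT2
import Pool.Agent.H289SM.TaskT3
import Pool.Agent.H289SM.TaskT4
import Pool.Agent.H289SM.TaskT5
import Pool.Agent.H289SM.TaskT6

/-!
# MP_c09afc_pr: the OWUSF is not the only infinite-step stationary measure on `ℤ^d`

A function `F ∈ ℓ¹(ℤ^d)` with integer Laplacian, `F 0 = 0` and a non-integer value gives a function
on rotor configurations which modulo `ℤ` is invariant under the rotor walk from `a` and is shifted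
by a non-integer under the walk from some `b`. Conditioning a measure that is stationary for all
start vertices on this invariant gives different stationary measures for the walk from `a`.
-/

set_option autoImplicit false

open MeasureTheory

namespace Pool.Agent.Results.MP_c09afc_pr.ManyStationaryMeasures

open Pool.Agent.RW114 Pool.Agent.H289SM

/-- For `d ≥ 2`, all mechanisms `τ` (with a single orbit at each vertex) and every measure `μ` on
the rotor configurations of `ℤ^d`:
(1) if `μ` is infinite-step stationary for the walks from all vertices, then for every start vertex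
`a` there is another infinite-step stationary measure, absolutely continuous with respect to `μ`;
(2) it is false that for every start vertex `μ` is the only infinite-step stationary measure;
(3) if the mechanisms are translation invariant and `μ` is the `OWUSF`, then (1) and (2) hold for
each single start vertex `a`. -/
theorem result (d : ℕ) (hd : 2 ≤ d) (τ : ∀ x, Equiv.Perm ((Zd d).neighborSet x))
    (hτ : SingleOrbit (Zd d) τ) (μ : Measure (Conf (Zd d))) :
    ((∀ b, Stationary (Zd d) τ b μ) →
      ∀ a, ∃ μ', Stationary (Zd d) τ a μ' ∧ μ' ≪ μ ∧ μ' ≠ μ) ∧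
    (¬ ∀ a ν, Stationary (Zd d) τ a ν ↔ ν = μ) ∧
    (TransInv τ → IsProbabilityMeasure μ → IsOWUSF' (Zd d) μ →
      ∀ a, (Stationary (Zd d) τ a μ → ∃ μ', Stationary (Zd d) τ a μ' ∧ μ' ≪ μ ∧ μ' ≠ μ) ∧
        ¬ ∀ ν, Stationary (Zd d) τ a ν ↔ ν = μ) := by
  have hP2 : TaskP2 := Pool.Agent.H289SM.TaskP2.main
  have hH3 : TaskH3 := Pool.Agent.H289SM.TaskH3.main Pool.Agent.H289SM.TaskH1.main
    Pool.Agent.H289SM.TaskH2.main
  have hG2 : TaskG2 := Pool.Agent.H289SM.TaskG2.main hH3 Pool.Agent.H289SM.TaskG1.main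
  have hG4 : TaskG4 := Pool.Agent.H289SM.TaskG4.main hG2 Pool.Agent.H289SM.TaskG3.main
  have hF1 : TaskF1 := Pool.Agent.H289SM.TaskF1.main hG4
  have hT2 : TaskT2 := Pool.Agent.H289SM.TaskT2.main
  exact full Pool.Agent.H289SM.TaskP1.main (Pool.Agent.H289SM.taskP3 hP2)
    Pool.Agent.H289SM.TaskP4.main Pool.Agent.H289SM.TaskM1.main hF1
    Pool.Agent.H289SM.TaskF2.main (Pool.Agent.H289SM.TaskF3.main hF1)
    Pool.Agent.H289SM.TaskZ1.main Pool.Agent.H289SM.TaskZ2.main
    (Pool.Agent.H289SM.TaskT3.main Pool.Agent.H289SM.TaskT1.main hT2)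
    (Pool.Agent.H289SM.TaskT6.main hT2 Pool.Agent.H289SM.TaskT4.main
      Pool.Agent.H289SM.TaskT5.main) d hd τ hτ μ

end Pool.Agent.Results.MP_c09afc_pr.ManyStationaryMeasures
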